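import Pool.Agent.H15CC.Basic
import Pool.Agent.H15CC.Conn
import Pool.Agent.H15CC.Pet

set_option autoImplicit false

/-!
A 3-connected (cubic, simple) graph on 12 vertices - the Petersen graph with one vertex expanded to a
triangle - for which the shortest cycle cover and the shortest postman tour have the same length (24), but
which does not have the cycle cover property.
-/
namespace Pool.Agent.Results.MP_b9ebd9_co.TruncatedPetersen

open SimpleGraph

/-- `G` has at least four vertices and no set of fewer than three vertices disconnects it. -/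
def ThreeConnected {V : Type} [Fintype V] (G : SimpleGraph V) : Prop :=
  3 < Fintype.card V ∧
    ∀ S : Finset V, S.card < 3 → (G.induce ((↑S : Set V)ᶜ)).Connected

open Classical in
/-- The number of members of the family `F` of closed walks in which the edge `e` lies. -/
noncomputable def multiplicity {V : Type} {G : SimpleGraph V} (F : List (Σ u : V, G.Walk u u))
    (e : Sym2 V) : ℕ :=
  F.countP (fun c => decide (e ∈ c.2.edges))

/-- `F` is a family (multiset, given as a list) of cycles of `G`. -/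
def IsCycleFamily {V : Type} {G : SimpleGraph V} (F : List (Σ u : V, G.Walk u u)) : Prop :=
  ∀ c ∈ F, c.2.IsCycle

/-- The set of all total lengths of cycle covers of `G`; its least element is `SCC(G)`. -/
def coverLengths {V : Type} (G : SimpleGraph V) : Set ℕ :=
  {k | ∃ F : List (Σ u : V, G.Walk u u), IsCycleFamily F ∧
    (∀ e ∈ G.edgeSet, ∃ c ∈ F, e ∈ c.2.edges) ∧ (F.map (fun c => c.2.length)).sum = k}

/-- The set of all lengths of closed walks of `G` traversing every edge; its least element is `CPP(G)`. -/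
def postmanLengths {V : Type} (G : SimpleGraph V) : Set ℕ :=
  {k | ∃ (u : V) (p : G.Walk u u), (∀ e ∈ G.edgeSet, e ∈ p.edges) ∧ p.length = k}

open Classical in
/-- `w` takes values in `{1, 2}` on the edges of `G`, and every edge cut has even total weight. -/
def Eulerian {V : Type} [Fintype V] (G : SimpleGraph V) (w : Sym2 V → ℕ) : Prop :=
  (∀ e ∈ G.edgeSet, w e = 1 ∨ w e = 2) ∧
    ∀ S : Finset V, Even (∑ x ∈ S, ∑ y ∈ Sᶜ, if G.Adj x y then w s(x, y) else 0)

/-- There is a family of cycles in which each edge `e` lies exactly `w e` times. -/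
def CycleCoverable {V : Type} (G : SimpleGraph V) (w : Sym2 V → ℕ) : Prop :=
  ∃ F : List (Σ u : V, G.Walk u u), IsCycleFamily F ∧ ∀ e ∈ G.edgeSet, multiplicity F e = w e

/-- The cycle cover property. -/
def CycleCoverProperty {V : Type} [Fintype V] (G : SimpleGraph V) : Prop :=
  ∀ w : Sym2 V → ℕ, Eulerian G w → CycleCoverable G w

/-- Adjacency bit masks. -/
def rowsL : List (ℕ × ℕ) := [(0, 50), (1, 69), (2, 138), (3, 276), (4, 521), (5, 1281), (6, 770), (7, 3076), (8, 104), (9, 2128), (10, 2208), (11, 1664)]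

/-- Adjacency bit masks as a function. -/
def rowN : List ℕ := [50, 69, 138, 276, 521, 1281, 770, 3076, 104, 2128, 2208, 1664]

def adjB (i j : Fin 12) : Bool := (rowN.getD i.val 0).testBit j.val

/-- The graph. -/
def gr : SimpleGraph (Fin 12) where
  Adj i j := adjB i j = true
  symm := ⟨by decide +kernel⟩
  loopless := ⟨by decide +kernel⟩

instance : DecidableRel gr.Adj := fun i j => inferInstanceAs (Decidable (adjB i j = true))

/-- Neighbour lists. -/
def nb : Fin 12 → List (Fin 12) := ![[1, 4, 5], [0, 2, 6], [1, 3, 7], [2, 4, 8], [0, 3, 9], [0, 8, 10], [1, 8, 9], [2, 10, 11], [3, 5, 6], [4, 6, 11], [5, 7, 11], [7, 9, 10]]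

/-- The edge list. -/
def EL : List (Sym2 (Fin 12)) := [s(0, 1), s(0, 4), s(0, 5), s(1, 2), s(1, 6), s(2, 3), s(2, 7), s(3, 4), s(3, 8), s(4, 9), s(5, 8), s(5, 10), s(6, 8), s(6, 9), s(7, 10), s(7, 11), s(9, 11), s(10, 11)]

theorem el_nodup : EL.Nodup := by decide +kernel

theorem el_adj : ∀ i j : Fin 12, adjB i j = true → s(i, j) ∈ EL := by decide +kernel

theorem el_mem : ∀ e ∈ EL, e ∈ gr.edgeSet := by
  intro e he
  simp only [EL, List.mem_cons, List.not_mem_nil, or_false] at he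
  rcases he with rfl | rfl | rfl | rfl | rfl | rfl | rfl | rfl | rfl | rfl | rfl | rfl | rfl | rfl | rfl | rfl | rfl | rfl <;> (rw [SimpleGraph.mem_edgeSet]; decide)

theorem mem_el : ∀ e ∈ gr.edgeSet, e ∈ EL := by
  intro e he
  induction e using Sym2.ind with
  | _ i j => exact el_adj i j he

theorem nb_nodup : ∀ v : Fin 12, (nb v).Nodup := by decide +kernel

theorem nb_mem : ∀ v u : Fin 12, gr.Adj v u → u ∈ nb v := by decide +kernel

theorem hrow : ∀ p ∈ rowsL, ∀ j : ℕ, p.2.testBit j = true →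
    ∃ (hi : p.1 < 12) (hj : j < 12), gr.Adj ⟨p.1, hi⟩ ⟨j, hj⟩ := by
  have h1 : ∀ p ∈ rowsL, p.1 < 12 ∧ p.2 < 2 ^ 12 := by decide +kernel
  have h2 : ∀ p ∈ rowsL, ∀ hi : p.1 < 12, ∀ j : Fin 12, p.2.testBit j.val = true → gr.Adj ⟨p.1, hi⟩ j := by
    decide +kernel
  intro p hp j hj
  obtain ⟨h3, h4⟩ := h1 p hp
  have hj' : j < 12 := by
    by_contra hc
    have : p.2 < 2 ^ j := lt_of_lt_of_le h4 (Nat.pow_le_pow_right (by norm_num) (by omega))
    rw [Nat.testBit_lt_two_pow this] at hj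
    exact absurd hj (by simp)
  exact ⟨h3, hj', h2 p hp h3 ⟨j, hj'⟩ hj⟩

theorem three : ThreeConnected gr :=
  H15CC.three_conn 12 (by norm_num) gr rowsL hrow 8 (by decide +kernel) (by decide +kernel)

theorem par0 (x : Sym2 (Fin 12) → ℕ) (h : Even (((nb 0).map (fun u => x s(0, u))).sum)) :
    (x s(0, 1) + x s(0, 4) + x s(0, 5)) % 2 = 0 := by
  change Even (x s(0, 1) + (x s(0, 4) + (x s(0, 5) + 0))) at h
  rw [Nat.even_iff] at h
  omega

theorem par1 (x : Sym2 (Fin 12) → ℕ) (h : Even (((nb 1).map (fun u => x s(1, u))).sum)) :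
    (x s(0, 1) + x s(1, 2) + x s(1, 6)) % 2 = 0 := by
  change Even (x s(1, 0) + (x s(1, 2) + (x s(1, 6) + 0))) at h
  rw [show (s(1, 0) : Sym2 (Fin 12)) = s(0, 1) from Sym2.eq_swap] at h
  rw [Nat.even_iff] at h
  omega

theorem par2 (x : Sym2 (Fin 12) → ℕ) (h : Even (((nb 2).map (fun u => x s(2, u))).sum)) :
    (x s(1, 2) + x s(2, 3) + x s(2, 7)) % 2 = 0 := by
  change Even (x s(2, 1) + (x s(2, 3) + (x s(2, 7) + 0))) at h
  rw [show (s(2, 1) : Sym2 (Fin 12)) = s(1, 2) from Sym2.eq_swap] at h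
  rw [Nat.even_iff] at h
  omega

theorem par3 (x : Sym2 (Fin 12) → ℕ) (h : Even (((nb 3).map (fun u => x s(3, u))).sum)) :
    (x s(2, 3) + x s(3, 4) + x s(3, 8)) % 2 = 0 := by
  change Even (x s(3, 2) + (x s(3, 4) + (x s(3, 8) + 0))) at h
  rw [show (s(3, 2) : Sym2 (Fin 12)) = s(2, 3) from Sym2.eq_swap] at h
  rw [Nat.even_iff] at h
  omega

theorem par4 (x : Sym2 (Fin 12) → ℕ) (h : Even (((nb 4).map (fun u => x s(4, u))).sum)) :
    (x s(0, 4) + x s(3, 4) + x s(4, 9)) % 2 = 0 := by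
  change Even (x s(4, 0) + (x s(4, 3) + (x s(4, 9) + 0))) at h
  rw [show (s(4, 0) : Sym2 (Fin 12)) = s(0, 4) from Sym2.eq_swap] at h
  rw [show (s(4, 3) : Sym2 (Fin 12)) = s(3, 4) from Sym2.eq_swap] at h
  rw [Nat.even_iff] at h
  omega

theorem par5 (x : Sym2 (Fin 12) → ℕ) (h : Even (((nb 5).map (fun u => x s(5, u))).sum)) :
    (x s(0, 5) + x s(5, 8) + x s(5, 10)) % 2 = 0 := by
  change Even (x s(5, 0) + (x s(5, 8) + (x s(5, 10) + 0))) at h
  rw [show (s(5, 0) : Sym2 (Fin 12)) = s(0, 5) from Sym2.eq_swap] at h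
  rw [Nat.even_iff] at h
  omega

theorem par6 (x : Sym2 (Fin 12) → ℕ) (h : Even (((nb 6).map (fun u => x s(6, u))).sum)) :
    (x s(1, 6) + x s(6, 8) + x s(6, 9)) % 2 = 0 := by
  change Even (x s(6, 1) + (x s(6, 8) + (x s(6, 9) + 0))) at h
  rw [show (s(6, 1) : Sym2 (Fin 12)) = s(1, 6) from Sym2.eq_swap] at h
  rw [Nat.even_iff] at h
  omega

theorem par7 (x : Sym2 (Fin 12) → ℕ) (h : Even (((nb 7).map (fun u => x s(7, u))).sum)) :
    (x s(2, 7) + x s(7, 10) + x s(7, 11)) % 2 = 0 := by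
  change Even (x s(7, 2) + (x s(7, 10) + (x s(7, 11) + 0))) at h
  rw [show (s(7, 2) : Sym2 (Fin 12)) = s(2, 7) from Sym2.eq_swap] at h
  rw [Nat.even_iff] at h
  omega

theorem par8 (x : Sym2 (Fin 12) → ℕ) (h : Even (((nb 8).map (fun u => x s(8, u))).sum)) :
    (x s(3, 8) + x s(5, 8) + x s(6, 8)) % 2 = 0 := by
  change Even (x s(8, 3) + (x s(8, 5) + (x s(8, 6) + 0))) at h
  rw [show (s(8, 3) : Sym2 (Fin 12)) = s(3, 8) from Sym2.eq_swap] at h
  rw [show (s(8, 5) : Sym2 (Fin 12)) = s(5, 8) from Sym2.eq_swap] at h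
  rw [show (s(8, 6) : Sym2 (Fin 12)) = s(6, 8) from Sym2.eq_swap] at h
  rw [Nat.even_iff] at h
  omega

theorem par9 (x : Sym2 (Fin 12) → ℕ) (h : Even (((nb 9).map (fun u => x s(9, u))).sum)) :
    (x s(4, 9) + x s(6, 9) + x s(9, 11)) % 2 = 0 := by
  change Even (x s(9, 4) + (x s(9, 6) + (x s(9, 11) + 0))) at h
  rw [show (s(9, 4) : Sym2 (Fin 12)) = s(4, 9) from Sym2.eq_swap] at h
  rw [show (s(9, 6) : Sym2 (Fin 12)) = s(6, 9) from Sym2.eq_swap] at h
  rw [Nat.even_iff] at h
  omega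

theorem par10 (x : Sym2 (Fin 12) → ℕ) (h : Even (((nb 10).map (fun u => x s(10, u))).sum)) :
    (x s(5, 10) + x s(7, 10) + x s(10, 11)) % 2 = 0 := by
  change Even (x s(10, 5) + (x s(10, 7) + (x s(10, 11) + 0))) at h
  rw [show (s(10, 5) : Sym2 (Fin 12)) = s(5, 10) from Sym2.eq_swap] at h
  rw [show (s(10, 7) : Sym2 (Fin 12)) = s(7, 10) from Sym2.eq_swap] at h
  rw [Nat.even_iff] at h
  omega

theorem par11 (x : Sym2 (Fin 12) → ℕ) (h : Even (((nb 11).map (fun u => x s(11, u))).sum)) :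
    (x s(7, 11) + x s(9, 11) + x s(10, 11)) % 2 = 0 := by
  change Even (x s(11, 7) + (x s(11, 9) + (x s(11, 10) + 0))) at h
  rw [show (s(11, 7) : Sym2 (Fin 12)) = s(7, 11) from Sym2.eq_swap] at h
  rw [show (s(11, 9) : Sym2 (Fin 12)) = s(9, 11) from Sym2.eq_swap] at h
  rw [show (s(11, 10) : Sym2 (Fin 12)) = s(10, 11) from Sym2.eq_swap] at h
  rw [Nat.even_iff] at h
  omega

theorem four (a b c : ℕ) (ha : 1 ≤ a) (hb : 1 ≤ b) (hc : 1 ≤ c) (h : (a + b + c) % 2 = 0) : 4 ≤ a + b + c := by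
  omega

/-- The common lower bound. -/
theorem lb (x : Sym2 (Fin 12) → ℕ) (h1 : ∀ e ∈ EL, 1 ≤ x e)
    (hp : ∀ v : Fin 12, Even (((nb v).map (fun u => x s(v, u))).sum)) : 24 ≤ (EL.map x).sum := by
  have e0 := h1 s(0, 1) (by decide +kernel)
  have e1 := h1 s(0, 4) (by decide +kernel)
  have e2 := h1 s(0, 5) (by decide +kernel)
  have e3 := h1 s(1, 2) (by decide +kernel)
  have e4 := h1 s(1, 6) (by decide +kernel)
  have e5 := h1 s(2, 3) (by decide +kernel)
  have e6 := h1 s(2, 7) (by decide +kernel)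
  have e7 := h1 s(3, 4) (by decide +kernel)
  have e8 := h1 s(3, 8) (by decide +kernel)
  have e9 := h1 s(4, 9) (by decide +kernel)
  have e10 := h1 s(5, 8) (by decide +kernel)
  have e11 := h1 s(5, 10) (by decide +kernel)
  have e12 := h1 s(6, 8) (by decide +kernel)
  have e13 := h1 s(6, 9) (by decide +kernel)
  have e14 := h1 s(7, 10) (by decide +kernel)
  have e15 := h1 s(7, 11) (by decide +kernel)
  have e16 := h1 s(9, 11) (by decide +kernel)
  have e17 := h1 s(10, 11) (by decide +kernel)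
  have g0 := four _ _ _ e0 e1 e2 (par0 x (hp _))
  have g1 := four _ _ _ e0 e3 e4 (par1 x (hp _))
  have g2 := four _ _ _ e3 e5 e6 (par2 x (hp _))
  have g3 := four _ _ _ e5 e7 e8 (par3 x (hp _))
  have g4 := four _ _ _ e1 e7 e9 (par4 x (hp _))
  have g5 := four _ _ _ e2 e10 e11 (par5 x (hp _))
  have g6 := four _ _ _ e4 e12 e13 (par6 x (hp _))
  have g7 := four _ _ _ e6 e14 e15 (par7 x (hp _))
  have g8 := four _ _ _ e8 e10 e12 (par8 x (hp _))
  have g9 := four _ _ _ e9 e13 e16 (par9 x (hp _))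
  have g10 := four _ _ _ e11 e14 e17 (par10 x (hp _))
  have g11 := four _ _ _ e15 e16 e17 (par11 x (hp _))
  change 24 ≤ x s(0, 1) + (x s(0, 4) + (x s(0, 5) + (x s(1, 2) + (x s(1, 6) + (x s(2, 3) + (x s(2, 7) + (x s(3, 4) + (x s(3, 8) + (x s(4, 9) + (x s(5, 8) + (x s(5, 10) + (x s(6, 8) + (x s(6, 9) + (x s(7, 10) + (x s(7, 11) + (x s(9, 11) + (x s(10, 11) + 0)))))))))))))))))
  clear e0 e1 e2 e3 e4 e5 e6 e7 e8 e9 e10 e11 e12 e13 e14 e15 e16 e17
  clear h1 hp
  omega

/-- A cycle of the cover. -/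
def c0 : gr.Walk 0 0 :=
  .cons (v := 1) (by decide) (.cons (v := 6) (by decide) (.cons (v := 8) (by decide) (.cons (v := 3) (by decide) (.cons (v := 4) (by decide) (.cons (v := 0) (by decide) .nil)))))

/-- A cycle of the cover. -/
def c1 : gr.Walk 0 0 :=
  .cons (v := 4) (by decide) (.cons (v := 9) (by decide) (.cons (v := 11) (by decide) (.cons (v := 10) (by decide) (.cons (v := 5) (by decide) (.cons (v := 0) (by decide) .nil)))))

/-- A cycle of the cover. -/
def c2 : gr.Walk 1 1 :=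
  .cons (v := 2) (by decide) (.cons (v := 7) (by decide) (.cons (v := 11) (by decide) (.cons (v := 9) (by decide) (.cons (v := 6) (by decide) (.cons (v := 1) (by decide) .nil)))))

/-- A cycle of the cover. -/
def c3 : gr.Walk 2 2 :=
  .cons (v := 3) (by decide) (.cons (v := 8) (by decide) (.cons (v := 5) (by decide) (.cons (v := 10) (by decide) (.cons (v := 7) (by decide) (.cons (v := 2) (by decide) .nil)))))

/-- A postman tour. -/
def tour : gr.Walk 0 0 :=
  .cons (v := 5) (by decide) (.cons (v := 10) (by decide) (.cons (v := 11) (by decide) (.cons (v := 9) (by decide) (.cons (v := 11) (by decide) (.cons (v := 7) (by decide) (.cons (v := 2) (by decide) (.cons (v := 7) (by decide) (.cons (v := 10) (by decide) (.cons (v := 5) (by decide) (.cons (v := 8) (by decide) (.cons (v := 3) (by decide) (.cons (v := 8) (by decide) (.cons (v := 6) (by decide) (.cons (v := 1) (by decide) (.cons (v := 6) (by decide) (.cons (v := 9) (by decide) (.cons (v := 4) (by decide) (.cons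 (v := 0) (by decide) (.cons (v := 4) (by decide) (.cons (v := 3) (by decide) (.cons (v := 2) (by decide) (.cons (v := 1) (by decide) (.cons (v := 0) (by decide) .nil)))))))))))))))))))))))

theorem c0_cycle : c0.IsCycle := by
  rw [Walk.isCycle_def]
  exact ⟨(Walk.isTrail_def _).mpr (by decide +kernel), (by intro h; cases h), by decide +kernel⟩

theorem c1_cycle : c1.IsCycle := by
  rw [Walk.isCycle_def]
  exact ⟨(Walk.isTrail_def _).mpr (by decide +kernel), (by intro h; cases h), by decide +kernel⟩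

theorem c2_cycle : c2.IsCycle := by
  rw [Walk.isCycle_def]
  exact ⟨(Walk.isTrail_def _).mpr (by decide +kernel), (by intro h; cases h), by decide +kernel⟩

theorem c3_cycle : c3.IsCycle := by
  rw [Walk.isCycle_def]
  exact ⟨(Walk.isTrail_def _).mpr (by decide +kernel), (by intro h; cases h), by decide +kernel⟩

/-- The cover. -/
def cov : List (Σ u : Fin 12, gr.Walk u u) := [⟨_, c0⟩, ⟨_, c1⟩, ⟨_, c2⟩, ⟨_, c3⟩]

theorem cov_cycles : IsCycleFamily cov := by
  intro c hc
  simp only [cov, List.mem_cons, List.not_mem_nil, or_false] at hc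
  rcases hc with rfl | rfl | rfl | rfl
  · exact c0_cycle
  · exact c1_cycle
  · exact c2_cycle
  · exact c3_cycle

theorem cov_all : ∀ i j : Fin 12, adjB i j = true →
    s(i, j) ∈ c0.edges ∨ s(i, j) ∈ c1.edges ∨ s(i, j) ∈ c2.edges ∨ s(i, j) ∈ c3.edges := by
  decide +kernel

theorem tour_all : ∀ i j : Fin 12, adjB i j = true → s(i, j) ∈ tour.edges := by
  decide +kernel

theorem scc : IsLeast (coverLengths gr) 24 := by
  constructor
  · refine ⟨cov, cov_cycles, ?_, by decide +kernel⟩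
    intro e he
    induction e using Sym2.ind with
    | _ i j =>
      rcases cov_all i j he with h | h | h | h
      · exact ⟨⟨_, c0⟩, by simp [cov], h⟩
      · exact ⟨⟨_, c1⟩, by simp [cov], h⟩
      · exact ⟨⟨_, c2⟩, by simp [cov], h⟩
      · exact ⟨⟨_, c3⟩, by simp [cov], h⟩
  · rintro k ⟨F, hF, hcov, rfl⟩
    have hT : ∀ c ∈ F, c.2.IsTrail := fun c hc => (hF c hc).isTrail
    rw [H15CC.total_eq F hT EL el_nodup mem_el]
    apply lb
    · intro e he
      obtain ⟨c, hc, hce⟩ := hcov e (el_mem e he)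
      unfold H15CC.mult
      rw [Nat.succ_le_iff, List.countP_pos_iff]
      exact ⟨c, hc, by simpa using hce⟩
    · intro v
      exact H15CC.even_mult F hT v (nb v) (nb_nodup v) (nb_mem v)

theorem cpp : IsLeast (postmanLengths gr) 24 := by
  constructor
  · refine ⟨_, tour, ?_, by decide +kernel⟩
    intro e he
    induction e using Sym2.ind with
    | _ i j => exact tour_all i j he
  · rintro k ⟨u, p, hcov, rfl⟩
    rw [H15CC.walk_length p EL el_nodup mem_el]
    apply lb
    · intro e he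
      exact List.count_pos_iff.mpr (hcov e (el_mem e he))
    · intro v
      exact H15CC.walk_vertex p v (nb v) (nb_nodup v) (nb_mem v)

/-- The bad weight: 2 on the five spokes and on one triangle edge, 1 elsewhere. -/
def w0 (e : Sym2 (Fin 12)) : ℕ :=
  if e ∈ [s(0, 5), s(1, 6), s(2, 7), s(3, 8), s(4, 9), s(10, 11)] then 2 else 1

/-- Cut sums of a symmetric function with even vertex sums are even. -/
theorem cut_even {V : Type} [Fintype V] [DecidableEq V] (f : V → V → ℕ) (hs : ∀ x y, f x y = f y x)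
    (h0 : ∀ x, f x x = 0) (hv : ∀ x, Even (∑ y, f x y)) (S : Finset V) :
    Even (∑ x ∈ S, ∑ y ∈ Sᶜ, f x y) := by
  have h1 : Even (∑ x ∈ S, ∑ y ∈ S, f x y) := by
    induction S using Finset.induction_on with
    | empty => simp
    | insert a S ha ih =>
      rw [Finset.sum_insert ha, Finset.sum_insert ha, h0, zero_add]
      have : ∑ x ∈ S, ∑ y ∈ insert a S, f x y = ∑ x ∈ S, f a x + ∑ x ∈ S, ∑ y ∈ S, f x y := by
        rw [← Finset.sum_add_distrib]
        apply Finset.sum_congr rfl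
        intro x _
        rw [Finset.sum_insert ha, hs x a]
      rw [this, ← add_assoc]
      exact Even.add ⟨_, rfl⟩ ih
  have h2 : Even (∑ x ∈ S, ∑ y, f x y) := Finset.even_sum _ (fun x _ => hv x)
  have h3 : ∑ x ∈ S, ∑ y, f x y = ∑ x ∈ S, ∑ y ∈ S, f x y + ∑ x ∈ S, ∑ y ∈ Sᶜ, f x y := by
    rw [← Finset.sum_add_distrib]
    apply Finset.sum_congr rfl
    intro x _
    rw [Finset.sum_add_sum_compl]
  rw [h3] at h2
  exact (Nat.even_add.mp h2).mp h1

theorem w0_vertex : ∀ x : Fin 12, Even (∑ y : Fin 12, if gr.Adj x y then w0 s(x, y) else 0) := by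
  decide +kernel

theorem w0_euler : Eulerian gr w0 := by
  have hv : ∀ x : Fin 12, Even (∑ y : Fin 12, @ite ℕ (gr.Adj x y) (Classical.propDecidable _) (w0 s(x, y)) 0) := by
    intro x
    have h := w0_vertex x
    have h2 : (fun y : Fin 12 => @ite ℕ (gr.Adj x y) (Classical.propDecidable _) (w0 s(x, y)) 0) =
        (fun y : Fin 12 => if gr.Adj x y then w0 s(x, y) else 0) := by
      funext y
      by_cases h : gr.Adj x y
      · simp only [if_pos h]
      · simp only [if_neg h]
    rw [h2]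
    exact h
  constructor
  · intro e _
    unfold w0
    by_cases h : e ∈ [s(0, 5), s(1, 6), s(2, 7), s(3, 8), s(4, 9), s(10, 11)]
    · rw [if_pos h]; exact Or.inr rfl
    · rw [if_neg h]; exact Or.inl rfl
  · intro S
    refine @cut_even (Fin 12) _ (fun a b => Classical.propDecidable _)
      (fun x y => @ite ℕ (gr.Adj x y) (Classical.propDecidable _) (w0 s(x, y)) 0) ?_ ?_ ?_ S
    · intro x y
      rw [Sym2.eq_swap (a := x) (b := y)]
      by_cases h : gr.Adj x y
      · simp only [if_pos h, if_pos h.symm]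
      · have h' : ¬ gr.Adj y x := fun h' => h h'.symm
        simp only [if_neg h, if_neg h']
    · intro x
      simp only [if_neg (gr.irrefl (v := x))]
    · exact hv

def av : Fin 5 → Sym2 (Fin 12) := ![s(0, 1), s(1, 2), s(2, 3), s(3, 4), s(0, 4)]
def bv : Fin 5 → Sym2 (Fin 12) := ![s(5, 10), s(6, 8), s(9, 11), s(5, 8), s(6, 9)]
def sv : Fin 5 → Sym2 (Fin 12) := ![s(0, 5), s(1, 6), s(2, 7), s(3, 8), s(4, 9)]

theorem tri (m e f p q r : ℕ) (h1 : (m + p + q) % 2 = 0) (h2 : (e + p + r) % 2 = 0)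
    (h3 : (f + q + r) % 2 = 0) : (m + e + f) % 2 = 0 := by omega

theorem perm3 (a b c a' b' c' : ℕ) (h : (a + b + c) % 2 = 0) (h' : a + b + c = a' + b' + c') :
    Even (a' + b' + c') := by
  rw [← h', Nat.even_iff]; exact h

theorem parities (c : Σ u : Fin 12, gr.Walk u u) (hc : c.2.IsTrail) :
    (∀ i : Fin 5, Even (H15CC.ind c (sv i) + H15CC.ind c (av i) + H15CC.ind c (av (i + 4)))) ∧
    (∀ i : Fin 5, Even (H15CC.ind c (sv i) + H15CC.ind c (bv i) + H15CC.ind c (bv (i + 3)))) := by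
  have hp := fun v => H15CC.even_ind c hc v (nb v) (nb_nodup v) (nb_mem v)
  generalize H15CC.ind c = x at hp ⊢
  constructor
  · intro i
    fin_cases i
    · exact perm3 _ _ _ (x s(0, 5)) (x s(0, 1)) (x s(0, 4)) (par0 x (hp _)) (by ring)
    · exact perm3 _ _ _ (x s(1, 6)) (x s(1, 2)) (x s(0, 1)) (par1 x (hp _)) (by ring)
    · exact perm3 _ _ _ (x s(2, 7)) (x s(2, 3)) (x s(1, 2)) (par2 x (hp _)) (by ring)
    · exact perm3 _ _ _ (x s(3, 8)) (x s(3, 4)) (x s(2, 3)) (par3 x (hp _)) (by ring)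
    · exact perm3 _ _ _ (x s(4, 9)) (x s(0, 4)) (x s(3, 4)) (par4 x (hp _)) (by ring)
  · intro i
    fin_cases i
    · exact perm3 _ _ _ (x s(0, 5)) (x s(5, 10)) (x s(5, 8)) (par5 x (hp _)) (by ring)
    · exact perm3 _ _ _ (x s(1, 6)) (x s(6, 8)) (x s(6, 9)) (par6 x (hp _)) (by ring)
    · refine perm3 _ _ _ (x s(2, 7)) (x s(9, 11)) (x s(5, 10)) (tri (x s(2, 7)) (x s(5, 10)) (x s(9, 11)) (x s(7, 10)) (x s(7, 11)) (x s(10, 11)) (par7 x (hp _)) (par10 x (hp _)) ?_) (by ring)
      have := par11 x (hp _)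
      rw [← this]; congr 1; ring
    · exact perm3 _ _ _ (x s(3, 8)) (x s(5, 8)) (x s(6, 8)) (par8 x (hp _)) (by ring)
    · exact perm3 _ _ _ (x s(4, 9)) (x s(6, 9)) (x s(9, 11)) (par9 x (hp _)) (by ring)

theorem not_coverable : ¬ CycleCoverable gr w0 := by
  rintro ⟨F, hF, hw⟩
  have hm : ∀ e, H15CC.mult F e = multiplicity F e := by
    intro e
    unfold H15CC.mult multiplicity
    rfl
  have hm' : ∀ e ∈ EL, H15CC.mult F e = w0 e := fun e he => by rw [hm]; exact hw e (el_mem e he)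
  refine H15CC.petersen_contra F av bv sv ?_ ?_ ?_ ?_ ?_
  · have : ∀ i, av i ∈ EL ∧ w0 (av i) = 1 := by decide +kernel
    intro i; rw [hm' _ (this i).1, (this i).2]
  · have : ∀ i, bv i ∈ EL ∧ w0 (bv i) = 1 := by decide +kernel
    intro i; rw [hm' _ (this i).1, (this i).2]
  · have : ∀ i, sv i ∈ EL ∧ w0 (sv i) = 2 := by decide +kernel
    intro i; rw [hm' _ (this i).1, (this i).2]
  · intro c hc; exact (parities c (hF c hc).isTrail).1
  · intro c hc; exact (parities c (hF c hc).isTrail).2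

/-- There is a 3-connected simple graph (on 12 vertices) whose shortest cycle covers and shortest postman
tours have equal length (namely 24), but which does not have the cycle cover property. -/
theorem result : ∃ G : SimpleGraph (Fin 12), ThreeConnected G ∧
    IsLeast (coverLengths G) 24 ∧ IsLeast (postmanLengths G) 24 ∧ ¬ CycleCoverProperty G :=
  ⟨gr, three, scc, cpp, fun h => not_coverable (h w0 w0_euler)⟩

end Pool.Agent.Results.MP_b9ebd9_co.TruncatedPetersen
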